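import Pool.Agent.K3h2.LT.Stm

/-!
# LT brick POS (helper52, for helper2)
-/

set_option autoImplicit false

open Filter Topology

namespace Pool.Agent.K3h52.LT

open Pool.Agent.K3h2.LT

/-- POS: bounded solutions of the linear recursion which vanish at `M` vanish. -/
theorem t_POS : S_POS := by
  intro L B g h M hL hg hgM hB hrec hM
  have hB0 : 0 ≤ B := (abs_nonneg (h 0)).trans (hB 0)
  have step : ∀ n : ℕ, ∀ k, M < k → |h k| ≤ (3 / 4 : ℝ) ^ n * B := by
    intro n
    induction n with
    | zero =>
      intro k _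
      simpa using hB k
    | succ n ih =>
      intro k hk
      set D : ℝ := (3 / 4 : ℝ) ^ n * B with hD
      have hD0 : 0 ≤ D := by positivity
      have h1 : |g (k - 1) * h (k - 1)| ≤ L / 4 * D := by
        rcases eq_or_lt_of_le (show M ≤ k - 1 by omega) with e | e
        · rw [← e, hM, mul_zero, abs_zero]
          positivity
        · rw [abs_mul, abs_of_pos (hg _)]
          exact mul_le_mul (hgM _ e) (ih _ e) (abs_nonneg _) (by positivity)
      have h2 : |g k * h k| ≤ L / 4 * D := by
        rw [abs_mul, abs_of_pos (hg _)]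
        exact mul_le_mul (hgM _ hk) (ih _ hk) (abs_nonneg _) (by positivity)
      have h3 : |g (k + 1) * h (k + 1)| ≤ L / 4 * D := by
        have e : M < k + 1 := by omega
        rw [abs_mul, abs_of_pos (hg _)]
        exact mul_le_mul (hgM _ e) (ih _ e) (abs_nonneg _) (by positivity)
      have h4 : L * |h k| ≤ L * (3 / 4 * D) := by
        calc L * |h k| = |L * h k| := by rw [abs_mul, abs_of_pos hL]
          _ = |g (k - 1) * h (k - 1) + g k * h k + g (k + 1) * h (k + 1)| := by rw [hrec k]
          _ ≤ |g (k - 1) * h (k - 1)| + |g k * h k| + |g (k + 1) * h (k + 1)| :=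
            abs_add_three _ _ _
          _ ≤ L * (3 / 4 * D) := by linarith
      have h5 := le_of_mul_le_mul_left h4 hL
      rw [pow_succ]
      calc |h k| ≤ 3 / 4 * D := h5
        _ = (3 / 4 : ℝ) ^ n * (3 / 4) * B := by rw [hD]; ring
  have hpos : ∀ k, M < k → h k = 0 := by
    intro k hk
    have hlim : Tendsto (fun n : ℕ => (3 / 4 : ℝ) ^ n * B) atTop (𝓝 (0 * B)) :=
      (tendsto_pow_atTop_nhds_zero_of_lt_one (by norm_num) (by norm_num)).mul_const B
    rw [zero_mul] at hlim
    have : |h k| ≤ 0 := ge_of_tendsto' hlim fun n => step n k hk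
    exact abs_eq_zero.1 (le_antisymm this (abs_nonneg _))
  have hneg : ∀ n : ℕ, h (M - n) = 0 ∧ h (M - n + 1) = 0 := by
    intro n
    induction n with
    | zero =>
      simp only [Nat.cast_zero, sub_zero]
      exact ⟨hM, hpos _ (by omega)⟩
    | succ n ih =>
      obtain ⟨i1, i2⟩ := ih
      have hr := hrec (M - n)
      rw [i1, i2, mul_zero, mul_zero, mul_zero, add_zero, add_zero] at hr
      have e : M - ((n + 1 : ℕ) : ℤ) = M - n - 1 := by push_cast; ring
      have e' : M - ((n + 1 : ℕ) : ℤ) + 1 = M - n := by push_cast; ring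
      rw [e', e]
      refine ⟨?_, i1⟩
      rcases mul_eq_zero.1 hr.symm with h0 | h0
      · exact absurd h0 (hg _).ne'
      · exact h0
  intro k
  rcases lt_or_ge M k with hk | hk
  · exact hpos k hk
  · have := (hneg (M - k).toNat).1
    have e : M - ((M - k).toNat : ℤ) = k := by omega
    rwa [e] at this

end Pool.Agent.K3h52.LT
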